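import Pool.Agent.Helper6.LPA.St
import Pool.Agent.Helper18.ED.ME
import Pool.Agent.Helper18.TR.FM
import Pool.Agent.Helper18.TR.FS
import Pool.Agent.Helper18.TR.RG
import Pool.Agent.Helper30.TR.BO
import Pool.Agent.Helper32.TR.FL
import Pool.Agent.Helper96.TR.LV
import Pool.Agent.Helper96.TR.SB

set_option autoImplicit false

namespace Pool.Agent.Helper56.LPA

open Finset
open Pool.Agent.Helper6.LP Pool.Agent.Helper6.LPA
open Pool.Agent.Helper18.TR (fam0 fam1 fl_subset fl_card pf_Level StRange StBonf StFLmain pf_Range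
  pf_Bonf pf_FLmain pf_Fact0 pf_Fact1 pf_Sym pf_Esymm)
open Pool.Agent.Helper18

private theorem range_ : StRange := pf_Range ED.pf_Mertens

private theorem bonf : StBonf := pf_Bonf pf_Fact0 pf_Fact1 pf_Sym pf_Esymm

private theorem flMain : StFLmain := pf_FLmain pf_Fact0 pf_Fact1 pf_Sym pf_Esymm range_

theorem hWTS : StWTS := by
  classical
  obtain ⟨b, hb, hmain⟩ := flMain 3 (1 / 2) (by norm_num) (by norm_num)
  obtain ⟨B, hlev⟩ := pf_Level b
  refine ⟨B + 1, by omega, ?_⟩
  intro w hw Q hQ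
  have hlev' := hlev w (by omega) Q hQ
  have hcard := fl_card hQ hlev'
  have hpow : w ^ B ≤ w ^ (B + 1) := Nat.pow_le_pow_right (by omega) (by omega)
  have hprod : ∀ (E : ℕ → Prop) (T : Finset ℕ),
      ∏ p ∈ T, (if E p then (1 : ℝ) else 0) = if ∀ l ∈ T, E l then 1 else 0 := by
    intro E T
    by_cases h : ∀ l ∈ T, E l
    · rw [if_pos h]
      exact prod_eq_one fun p hp => if_pos (h p hp)
    · rw [if_neg h]
      push Not at h
      obtain ⟨l, hl, hE⟩ := h
      exact prod_eq_zero hl (if_neg hE)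
  refine ⟨fam0 w b Q ∪ fam1 w b Q, ?_, ?_, ?_, ?_⟩
  · intro T hT
    exact ⟨fl_subset hT, (hlev' T hT).trans hpow⟩
  · exact hcard.trans hpow
  · intro E
    have h := (bonf w b Q (fun p => if E p then (1 : ℝ) else 0) hb
      (fun p _ => by
        show 0 ≤ (if E p then (1 : ℝ) else 0) ∧ (if E p then (1 : ℝ) else 0) ≤ 1
        split_ifs <;> norm_num)).1
    have h1 : ∏ p ∈ Q, (1 - (if E p then (1 : ℝ) else 0)) = if ∀ l ∈ Q, ¬ E l then 1 else 0 := by
      by_cases hE : ∀ l ∈ Q, ¬ E l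
      · rw [if_pos hE]
        exact prod_eq_one fun p hp => by
          rw [if_neg (hE p hp)]
          norm_num
      · rw [if_neg hE]
        push Not at hE
        obtain ⟨l, hl, hE⟩ := hE
        exact prod_eq_zero hl (by
          rw [if_pos hE]
          norm_num)
    have h2 : ∀ T : Finset ℕ, ∏ p ∈ T, (fun p => if E p then (1 : ℝ) else 0) p =
        if ∀ l ∈ T, E l then 1 else 0 := fun T => hprod E T
    have h3 : ∑ T ∈ fam0 w b Q ∪ fam1 w b Q, (-1 : ℝ) ^ T.card *
          ∏ p ∈ T, (fun p => if E p then (1 : ℝ) else 0) p =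
        ∑ T ∈ fam0 w b Q ∪ fam1 w b Q, (-1 : ℝ) ^ T.card * (if ∀ l ∈ T, E l then 1 else 0) :=
      sum_congr rfl fun T _ => by rw [h2 T]
    have h4 : ∑ T ∈ fam0 w b Q ∪ fam1 w b Q, (-1 : ℝ) ^ T.card *
          (if ∀ l ∈ T, E l then 1 else 0) ≤ if ∀ l ∈ Q, ¬ E l then 1 else 0 := by
      rw [← h3, ← h1]
      exact h
    exact h4
  · intro g hg
    have h := (hmain w Q hQ g hg).2
    have e : (1 : ℝ) - 1 / 2 = 1 / 2 := by norm_num
    rw [e] at h
    exact h

end Pool.Agent.Helper56.LPA
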